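import Pool.Agent.V11193.Cup.Torus

set_option autoImplicit false

open Set Equiv

namespace Pool.Agent.V11193.Cup

variable {X : Type*} [TopologicalSpace X] {N : ℕ}

/-- The vertices of the simplex of the unit cube given by a permutation. -/
def vp (π : Perm (Fin (N + 1))) (i : ℕ) (k : Fin (N + 1)) : ℤ := if (π.symm k : ℕ) < i then 1 else 0

def skip (i m : ℕ) : ℕ := if m < i then m else m + 1

theorem vp_swap (π : Perm (Fin (N + 1))) {a b : Fin (N + 1)} (hab : (b : ℕ) = a + 1) :
    vp (π * swap a b) ∘ skip b = vp π ∘ skip b := by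
  funext m k
  show vp (π * swap a b) (skip b m) k = vp π (skip b m) k
  have hs : skip b m ≠ b := by
    unfold skip
    split_ifs <;> omega
  generalize skip b m = q at hs
  have h1 : (π * swap a b).symm k = swap a b (π.symm k) := by
    rw [Perm.mul_def, symm_trans_apply, symm_swap]
  unfold vp
  rw [h1]
  generalize π.symm k = x
  by_cases hxa : x = a
  · subst hxa
    rw [swap_apply_left]
    split_ifs <;> omega
  · by_cases hxb : x = b
    · subst hxb
      rw [swap_apply_right]
      split_ifs <;> omega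
    · rw [swap_apply_of_ne_of_ne hxa hxb]

theorem vp_rotate (π : Perm (Fin (N + 1))) {m : ℕ} (hm : m ≤ N) (k : Fin (N + 1)) :
    vp (π * finRotate (N + 1)) (skip (N + 1) m) k = vp π (skip 0 m) k + -vp π 1 k := by
  have e1 : skip (N + 1) m = m := by
    unfold skip
    rw [if_pos (by omega)]
  have e2 : skip 0 m = m + 1 := by
    unfold skip
    rw [if_neg (by omega)]
  have h1 : (π * finRotate (N + 1)).symm k = (finRotate (N + 1)).symm (π.symm k) := by
    rw [Perm.mul_def, symm_trans_apply]
  rw [e1, e2]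
  unfold vp
  rw [h1]
  obtain ⟨j, hj⟩ := (finRotate (N + 1)).surjective (π.symm k)
  rw [← hj, symm_apply_apply]
  by_cases hl : j = Fin.last N
  · subst hl
    rw [finRotate_last]
    have h2 : ((Fin.last N : Fin (N + 1)) : ℕ) = N := Fin.val_last N
    have h3 : ((0 : Fin (N + 1)) : ℕ) = 0 := rfl
    split_ifs <;> omega
  · rw [coe_finRotate_of_ne_last hl]
    split_ifs <;> omega

/-- The alternating sum of the values of an integral-translation invariant cochain on the `i`-th
faces. -/
noncomputable def faceSum (b : (ℕ → Fin (N + 1) → ℤ) → ℝ) (i : ℕ) : ℝ :=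
  ∑ π : Perm (Fin (N + 1)), ((Perm.sign π : ℤ) : ℝ) * b (vp π ∘ skip i)

theorem faceSum_mid (b : (ℕ → Fin (N + 1) → ℤ) → ℝ) {i : ℕ} (h0 : 0 < i) (hi : i ≤ N) :
    faceSum b i = 0 := by
  obtain ⟨j, rfl⟩ : ∃ j, i = j + 1 := ⟨i - 1, by omega⟩
  set a : Fin (N + 1) := ⟨j, by omega⟩ with ha
  set b' : Fin (N + 1) := ⟨j + 1, by omega⟩ with hb'
  have hab : a ≠ b' := by
    intro h
    have := congrArg Fin.val h
    simp [ha, hb'] at this
  have h1 : faceSum b (j + 1) = -faceSum b (j + 1) := by
    conv_lhs => rw [faceSum]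
    rw [← Equiv.sum_comp (Equiv.mulRight (swap a b')), faceSum, ← Finset.sum_neg_distrib]
    refine Finset.sum_congr rfl fun π _ => ?_
    rw [coe_mulRight, Perm.sign_mul, Perm.sign_swap hab]
    have h2 : vp (π * swap a b') ∘ skip (j + 1) = vp π ∘ skip (j + 1) :=
      vp_swap π (a := a) (b := b') rfl
    rw [h2]
    push_cast
    ring
  linarith

theorem faceSum_last (b : (ℕ → Fin (N + 1) → ℤ) → ℝ)
    (hb : ∀ v w : ℕ → Fin (N + 1) → ℤ, (∀ i ≤ N, v i = w i) → b v = b w)
    (hc : ∀ (v : ℕ → Fin (N + 1) → ℤ) (c : Fin (N + 1) → ℤ), b (fun i k => v i k + c k) = b v) :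
    faceSum b (N + 1) = (-1) ^ N * faceSum b 0 := by
  rw [faceSum, ← Equiv.sum_comp (Equiv.mulRight (finRotate (N + 1))), faceSum, Finset.mul_sum]
  refine Finset.sum_congr rfl fun π _ => ?_
  rw [coe_mulRight, Perm.sign_mul, sign_finRotate]
  have h2 : b (vp (π * finRotate (N + 1)) ∘ skip (N + 1)) = b (vp π ∘ skip 0) := by
    rw [← hc (vp π ∘ skip 0) (fun k => -vp π 1 k)]
    apply hb
    intro m hm
    funext k
    exact vp_rotate π hm k
  rw [h2]
  push_cast
  try rw [Nat.add_sub_cancel]
  ring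

theorem faceSum_total (b : (ℕ → Fin (N + 1) → ℤ) → ℝ)
    (hb : ∀ v w : ℕ → Fin (N + 1) → ℤ, (∀ i ≤ N, v i = w i) → b v = b w)
    (hc : ∀ (v : ℕ → Fin (N + 1) → ℤ) (c : Fin (N + 1) → ℤ), b (fun i k => v i k + c k) = b v) :
    ∑ i : Fin (N + 2), (-1) ^ (i : ℕ) * faceSum b i = 0 := by
  rw [Fin.sum_univ_succ, Fin.sum_univ_castSucc]
  have h1 : ∑ i : Fin N, (-1) ^ ((i.castSucc.succ : Fin (N + 2)) : ℕ) *
      faceSum b ((i.castSucc.succ : Fin (N + 2)) : ℕ) = 0 := by
    refine Finset.sum_eq_zero fun i _ => ?_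
    rw [faceSum_mid b (by rw [Fin.val_succ]; omega)
      (by rw [Fin.val_succ, Fin.val_castSucc]; omega), mul_zero]
  have h2 : (((Fin.last N).succ : Fin (N + 2)) : ℕ) = N + 1 := by
    rw [Fin.val_succ, Fin.val_last]
  rw [h1, h2, faceSum_last b hb hc, Fin.val_zero]
  have h3 : ((-1 : ℝ) ^ N) * (-1) ^ N = 1 := by
    rw [← mul_pow]
    norm_num
  rw [pow_succ]
  linear_combination (-faceSum b 0) * h3

/-- The product cocycle of the torus is not a coboundary. -/
theorem cupLength_of_torus (T : C(Fin (N + 1) → ℝ, X))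
    (hT : ∀ (s : Fin (N + 1) → ℝ) (c : Fin (N + 1) → ℤ), T (fun k => s k + c k) = T s)
    (z : Fin (N + 1) → C(X, ℂ)) (hz : ∀ j x, z j x ≠ 0) (w : Fin (N + 1) → ℂ)
    (hzT : ∀ s j, z j (T s) = w j * Complex.exp (2 * Real.pi * Complex.I * s j)) :
    CupLengthAtLeast ℝ X (N + 1) := by
  set L : List (Σ p, Cochain ℝ X p) :=
    (List.ofFn (id : Fin (N + 1) → Fin (N + 1))).map fun j => ⟨1, wind (z j) (hz j)⟩ with hL
  have hlen : (List.ofFn (id : Fin (N + 1) → Fin (N + 1))).length = N + 1 := List.length_ofFn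
  obtain ⟨hdeg, hval⟩ := cupList_tau T z hz w hzT (List.ofFn (id : Fin (N + 1) → Fin (N + 1)))
  rw [hlen] at hdeg
  rw [← hL] at hdeg hval
  refine ⟨L, by rw [hL, List.length_map, hlen], ?_, ?_⟩
  · intro c hc
    rw [hL, List.mem_map] at hc
    obtain ⟨j, -, rfl⟩ := hc
    exact ⟨one_pos, wind_cocycle (z j) (hz j)⟩
  · generalize cupList L = P at hdeg hval
    obtain ⟨n, c⟩ := P
    simp only at hdeg hval
    subst hdeg
    rintro ⟨b, rfl⟩
    -- evaluate on the fundamental cycle
    set B : (ℕ → Fin (N + 1) → ℤ) → ℝ := fun v => b (tau T N v) with hB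
    have h0 := faceSum_total B (fun v w h => by rw [hB]; exact congrArg b (tau_congr T h))
      (fun v c => by rw [hB]; exact congrArg b (tau_add T hT v c))
    have h1 : ∀ π : Perm (Fin (N + 1)), d b (tau T (N + 1) (vp π)) =
        ∑ i : Fin (N + 2), (-1) ^ (i : ℕ) * B (vp π ∘ skip i) := by
      intro π
      show ∑ i : Fin (N + 2), (-1) ^ (i : ℕ) * b ((tau T (N + 1) (vp π)).pull i.succAbove) = _
      refine Finset.sum_congr rfl fun i _ => ?_
      rw [tau_pull T (vp π) i.succAbove (skip i)]
      intro m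
      unfold skip
      rw [Fin.succAbove]
      split_ifs with h1 h2 h2
      · rfl
      · exact absurd h1 (by rw [Fin.lt_def]; simpa using h2)
      · exact absurd h2 (by rw [Fin.lt_def] at h1; simpa using h1)
      · rfl
    have h2 : ∑ π : Perm (Fin (N + 1)), ((Perm.sign π : ℤ) : ℝ) * d b (tau T (N + 1) (vp π)) = 0 := by
      rw [← h0]
      simp only [h1, faceSum, Finset.mul_sum]
      rw [Finset.sum_comm]
      refine Finset.sum_congr rfl fun i _ => Finset.sum_congr rfl fun π _ => ?_
      ring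
    have h3 : ∀ π : Perm (Fin (N + 1)), d b (tau T (N + 1) (vp π)) = if π = 1 then 1 else 0 := by
      intro π
      rw [hval, prodDiff_ofFn]
      have h4 : ∀ i : Fin (N + 1), vp π ((i : ℕ) + 1) (id i) - vp π i (id i) =
          if π i = i then 1 else 0 := by
        intro i
        unfold vp
        rw [id]
        by_cases h : π i = i
        · have h5 : π.symm i = i := by
            rw [symm_apply_eq]
            exact h.symm
          rw [h5, if_pos (Nat.lt_succ_self _), if_neg (lt_irrefl _), if_pos h]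
          norm_num
        · have h5 : (π.symm i : ℕ) ≠ i := by
            intro h6
            apply h
            have h7 : π.symm i = i := Fin.ext h6
            rw [symm_apply_eq] at h7
            exact h7.symm
          rw [if_neg h]
          split_ifs <;> omega
      rw [Finset.prod_congr rfl fun i _ => h4 i]
      by_cases h : π = 1
      · subst h
        simp
      · rw [if_neg h]
        have : ∃ i, π i ≠ i := by
          by_contra hcon
          push Not at hcon
          exact h (Equiv.ext hcon)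
        obtain ⟨i, hi⟩ := this
        rw [Finset.prod_eq_zero (Finset.mem_univ i) (if_neg hi)]
        simp
    rw [Finset.sum_congr rfl fun π _ => by rw [h3 π]] at h2
    simp at h2

end Pool.Agent.V11193.Cup
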