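import Mathlib

/-! Singular cochains, cup products and cup-length; closed submanifolds of Euclidean space and the
curvature of their geodesics. -/

set_option autoImplicit false

open Set
open scoped ContDiff RealInnerProductSpace

namespace Pool.Agent.V11193.Cup

/-! ### Singular cohomology -/

/-- Singular `n`-simplices of `X`. -/
abbrev Simplex (X : Type*) [TopologicalSpace X] (n : ℕ) := C(stdSimplex ℝ (Fin (n + 1)), X)

/-- Singular `n`-cochains of `X` with coefficients in `K`. -/
abbrev Cochain (K X : Type*) [TopologicalSpace X] (n : ℕ) := Simplex X n → K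

section

variable {K X : Type*} [Field K] [TopologicalSpace X]

/-- The composition of a singular simplex with the affine map of standard simplices given by the map
`f` of their vertices. -/
noncomputable def Simplex.pull {n k : ℕ} (σ : Simplex X n) (f : Fin (k + 1) → Fin (n + 1)) :
    Simplex X k :=
  σ.comp ⟨stdSimplex.map f, stdSimplex.continuous_map f⟩

/-- The singular coboundary. -/
noncomputable def d {n : ℕ} (c : Cochain K X n) : Cochain K X (n + 1) := fun σ =>
  ∑ i : Fin (n + 2), (-1) ^ (i : ℕ) * c (σ.pull i.succAbove)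

/-- The inclusion of the first `p + 1` vertices. -/
def front (p q : ℕ) (i : Fin (p + 1)) : Fin (p + q + 1) := ⟨i, by omega⟩

/-- The inclusion of the last `q + 1` vertices. -/
def back (p q : ℕ) (i : Fin (q + 1)) : Fin (p + q + 1) := ⟨p + i, by omega⟩

/-- The cup product of singular cochains (front `p`-face, back `q`-face). -/
noncomputable def cup {p q : ℕ} (a : Cochain K X p) (b : Cochain K X q) : Cochain K X (p + q) :=
  fun σ => a (σ.pull (front p q)) * b (σ.pull (back p q))

/-- The iterated cup product of a list of cochains. -/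
noncomputable def cupList : List (Σ p, Cochain K X p) → Σ n, Cochain K X n
  | [] => ⟨0, fun _ => 1⟩
  | c :: L => ⟨c.1 + (cupList L).1, cup c.2 (cupList L).2⟩

/-- Cocycles. -/
def IsCocycle {n : ℕ} (c : Cochain K X n) : Prop := d c = 0

/-- Coboundaries. -/
def IsCoboundary : ∀ {n : ℕ}, Cochain K X n → Prop
  | 0, c => c = 0
  | _ + 1, c => ∃ b, d b = c

variable (K X)

/-- `X` has cup-length at least `l` over the field `K`: there are `l` singular cohomology classes of
positive degree, represented by cocycles, whose cup product is not zero. -/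
def CupLengthAtLeast (l : ℕ) : Prop :=
  ∃ L : List (Σ p, Cochain K X p), L.length = l ∧ (∀ c ∈ L, 0 < c.1 ∧ IsCocycle c.2) ∧
    ¬ IsCoboundary (cupList L).2

end

/-! ### Submanifolds -/

/-- `M` is a compact smooth embedded `m`-dimensional submanifold without boundary of `ℝ^(m+k)`:
locally the regular zero set of a smooth map to `ℝ^k`. -/
def IsClosedSubmanifold (m k : ℕ) (M : Set (EuclideanSpace ℝ (Fin (m + k)))) : Prop :=
  IsCompact M ∧ M.Nonempty ∧ ∀ x ∈ M, ∃ U : Set (EuclideanSpace ℝ (Fin (m + k))), IsOpen U ∧ x ∈ U ∧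
    ∃ F : EuclideanSpace ℝ (Fin (m + k)) → (Fin k → ℝ), ContDiffOn ℝ ∞ F U ∧
      (∀ y ∈ U, y ∈ M ↔ F y = 0) ∧ ∀ y ∈ U, y ∈ M → Function.Surjective (fderiv ℝ F y)

variable {V : Type*} [NormedAddCommGroup V] [InnerProductSpace ℝ V]

/-- `v` is tangent to `M` at `x`: the velocity of a smooth curve in `M` through `x`. -/
def IsTangent (M : Set V) (x v : V) : Prop :=
  ∃ c : ℝ → V, ContDiff ℝ ∞ c ∧ (∀ t, c t ∈ M) ∧ c 0 = x ∧ deriv c 0 = v

/-- The curvature of `M` (the maximum of `|II(v,v)|` over unit tangent vectors `v`) is at most `κ`.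
For a smooth curve `c` in `M` with unit speed at `0`, `II(c'(0), c'(0))` is the normal component of
`c''(0)`; its length is the maximum of `⟪c''(0), n⟫` over the unit normal vectors `n`. -/
def CurvatureAtMost (M : Set V) (κ : ℝ) : Prop :=
  ∀ c : ℝ → V, ContDiff ℝ ∞ c → (∀ t, c t ∈ M) → ‖deriv c 0‖ = 1 →
    ∀ n : V, ‖n‖ = 1 → (∀ v, IsTangent M (c 0) v → ⟪n, v⟫ = 0) → ⟪deriv (deriv c) 0, n⟫ ≤ κ

end Pool.Agent.V11193.Cup
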