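import Pool.Agent.V11193.Cup.Geo

set_option autoImplicit false

open Set
open scoped ContDiff RealInnerProductSpace

namespace Pool.Agent.V11193.Cup

variable {N : ℕ}

/-! ### Curvature -/

theorem curvature_tube {a : ℝ} (ha : 0 < a) : CurvatureAtMost (tube (N := N) a) (2 / a) := by
  intro c hc hcM hunit n hn hnormal
  set x := c 0 with hx
  have hxM : x ∈ tube a := hcM 0
  have hR : ∀ j, 0 < R x j := tube_pos ha hxM
  -- the angular components of the normal vector vanish
  set A : Fin (N + 1) → ℝ := fun j => P x j * Q n j - Q x j * P n j with hA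
  have hA0 : ∀ j, A j = 0 := by
    have h1 := hnormal _ (tangent_rot hxM A)
    rw [inner_PQ] at h1
    have h2 : ∑ j, A j ^ 2 = 0 := by
      rw [← h1]
      refine Finset.sum_congr rfl fun j _ => ?_
      rw [P_mk, Q_mk, hA]
      ring
    intro j
    have h3 := (Finset.sum_eq_zero_iff_of_nonneg fun i _ => sq_nonneg (A i)).mp h2 j
      (Finset.mem_univ j)
    exact pow_eq_zero_iff two_ne_zero |>.mp h3
  -- the radial components are proportional to `R - a`
  set Nn : Fin (N + 1) → ℝ := fun j => (P x j * P n j + Q x j * Q n j) / R x j with hNn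
  set lam : ℝ := (∑ j, Nn j * (R x j - a)) / (a / 2) ^ 2 with hlam
  have hsum : ∑ j, (R x j - a) ^ 2 = (a / 2) ^ 2 := hxM
  have ha2 : (a / 2) ^ 2 ≠ 0 := by positivity
  have hN : ∀ j, Nn j = lam * (R x j - a) := by
    set η : Fin (N + 1) → ℝ := fun j => Nn j - lam * (R x j - a) with hη
    have h0 : ∑ j, η j * (R x j - a) = 0 := by
      have : ∑ j, η j * (R x j - a) = ∑ j, Nn j * (R x j - a) - lam * ∑ j, (R x j - a) ^ 2 := by
        rw [Finset.mul_sum, ← Finset.sum_sub_distrib]
        refine Finset.sum_congr rfl fun j _ => ?_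
        rw [hη]
        ring
      rw [this, hsum, hlam, div_mul_cancel₀ _ ha2, sub_self]
    have h1 := hnormal _ (tangent_rad ha hxM η h0)
    rw [inner_PQ] at h1
    have h2 : ∑ j, η j * Nn j = 0 := by
      rw [← h1]
      refine Finset.sum_congr rfl fun j _ => ?_
      rw [P_mk, Q_mk, hNn]
      have := (hR j).ne'
      field_simp
    have h3 : ∑ j, η j ^ 2 = 0 := by
      have : ∑ j, η j ^ 2 = ∑ j, η j * Nn j - lam * ∑ j, η j * (R x j - a) := by
        rw [Finset.mul_sum, ← Finset.sum_sub_distrib]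
        refine Finset.sum_congr rfl fun j _ => ?_
        rw [hη]
        ring
      rw [this, h2, h0]
      ring
    intro j
    have h4 := (Finset.sum_eq_zero_iff_of_nonneg fun i _ => sq_nonneg (η i)).mp h3 j
      (Finset.mem_univ j)
    have h5 := pow_eq_zero_iff two_ne_zero |>.mp h4
    rw [hη] at h5
    simp only at h5
    linarith
  have hPn : ∀ j, P n j = Nn j * (P x j / R x j) := by
    intro j
    have h1 := hA0 j
    rw [hA] at h1
    simp only at h1
    have h2 := R_sq x j
    have h3 := (hR j).ne'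
    rw [hNn]
    simp only
    rw [div_mul_div_comm, eq_div_iff (mul_ne_zero h3 h3)]
    linear_combination (P n j) * h2 - (Q x j) * h1
  have hQn : ∀ j, Q n j = Nn j * (Q x j / R x j) := by
    intro j
    have h1 := hA0 j
    rw [hA] at h1
    simp only at h1
    have h2 := R_sq x j
    have h3 := (hR j).ne'
    rw [hNn]
    simp only
    rw [div_mul_div_comm, eq_div_iff (mul_ne_zero h3 h3)]
    linear_combination (Q n j) * h2 + (P x j) * h1
  have hPQ1 : ∀ j, (P x j / R x j) ^ 2 + (Q x j / R x j) ^ 2 = 1 := by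
    intro j
    rw [div_pow, div_pow, ← add_div, ← R_sq, div_self (pow_ne_zero 2 (hR j).ne')]
  -- `|lam| = 2 / a`
  have hlam2 : lam ^ 2 * (a / 2) ^ 2 = 1 := by
    have h1 : ‖n‖ ^ 2 = 1 := by rw [hn, one_pow]
    rw [norm_PQ] at h1
    rw [← h1, ← hsum, Finset.mul_sum]
    refine Finset.sum_congr rfl fun j _ => ?_
    rw [hPn, hQn, hN, mul_pow _ (P x j / R x j), mul_pow _ (Q x j / R x j), ← mul_add, hPQ1]
    ring
  have hlamabs : |lam| = 2 / a := by
    have h1 : (|lam| * (a / 2)) ^ 2 = 1 := by rw [mul_pow, sq_abs, hlam2]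
    have h2 : |lam| * (a / 2) = 1 := by
      have h3 : 0 ≤ |lam| * (a / 2) := by positivity
      nlinarith
    field_simp at h2 ⊢
    linarith
  -- the second derivative of the constraint
  have hcd : ∀ t, HasDerivAt c (deriv c t) t := fun t =>
    (hc.differentiable (by simp)).differentiableAt.hasDerivAt
  have hdc : ContDiff ℝ ∞ (deriv c) := by
    exact (contDiff_infty_iff_deriv.mp hc).2
  have hcdd : HasDerivAt (deriv c) (deriv (deriv c) 0) 0 :=
    (hdc.differentiable (by simp)).differentiableAt.hasDerivAt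
  set p : Fin (N + 1) → ℝ := fun j => P x j with hp
  set q : Fin (N + 1) → ℝ := fun j => Q x j with hq
  set p' : Fin (N + 1) → ℝ := fun j => P (deriv c 0) j with hp'
  set q' : Fin (N + 1) → ℝ := fun j => Q (deriv c 0) j with hq'
  set p'' : Fin (N + 1) → ℝ := fun j => P (deriv (deriv c) 0) j with hp''
  set q'' : Fin (N + 1) → ℝ := fun j => Q (deriv (deriv c) 0) j with hq''
  -- first derivative of the moduli
  set s : ℝ → Fin (N + 1) → ℝ := fun t j =>
    (P (c t) j * P (deriv c t) j + Q (c t) j * Q (deriv c t) j) / R (c t) j with hs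
  have hRd : ∀ t j, HasDerivAt (fun t => R (c t) j) (s t j) t := by
    intro t j
    have h1 : HasDerivAt (fun t => P (c t) j ^ 2 + Q (c t) j ^ 2)
        (2 * (P (c t) j * P (deriv c t) j + Q (c t) j * Q (deriv c t) j)) t := by
      refine HasDerivAt.congr_deriv
        (((hasDerivAt_P (hcd t) j).pow 2).add ((hasDerivAt_Q (hcd t) j).pow 2)) ?_
      simp only [Nat.cast_ofNat]
      ring
    have hne : P (c t) j ^ 2 + Q (c t) j ^ 2 ≠ 0 := by
      rw [← R_sq]
      exact pow_ne_zero 2 (tube_pos ha (hcM t) j).ne'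
    refine HasDerivAt.congr_deriv (h1.sqrt hne) ?_
    rw [hs]
    show _ / (2 * R (c t) j) = _
    rw [mul_div_mul_left _ _ two_ne_zero]
  have hR0 : ∀ j, R (c 0) j ≠ 0 := fun j => (hR j).ne'
  have hs0 : ∀ j, s 0 j * R x j = p j * p' j + q j * q' j := by
    intro j
    rw [hs]
    simp only
    rw [div_mul_cancel₀ _ (hR0 j)]
  have hsd : ∀ j, HasDerivAt (fun t => s t j)
      ((p' j ^ 2 + p j * p'' j + (q' j ^ 2 + q j * q'' j) - s 0 j ^ 2) / R x j) 0 := by
    intro j
    have h1 := (((hasDerivAt_P (hcd 0) j).mul (hasDerivAt_P hcdd j)).add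
      ((hasDerivAt_Q (hcd 0) j).mul (hasDerivAt_Q hcdd j))).div (hRd 0 j) (hR0 j)
    refine HasDerivAt.congr_deriv h1 ?_
    have h2 := hs0 j
    have h3 := (hR j).ne'
    show ((p' j * p' j + p j * p'' j + (q' j * q' j + q j * q'' j)) * R x j -
      (p j * p' j + q j * q' j) * s 0 j) / R x j ^ 2 = _
    rw [← h2]
    field_simp
  -- first derivative of the constraint
  have hcon1 : ∀ t, ∑ j, (R (c t) j - a) * s t j = 0 := by
    intro t
    have h1 : HasDerivAt (fun t => ∑ j, (R (c t) j - a) ^ 2)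
        (∑ j, 2 * ((R (c t) j - a) * s t j)) t := by
      refine HasDerivAt.fun_sum fun j _ => ?_
      refine HasDerivAt.congr_deriv (((hRd t j).sub_const a).pow 2) ?_
      simp only [Nat.cast_ofNat]
      ring
    have h2 : (fun t => ∑ j, (R (c t) j - a) ^ 2) = fun _ => (a / 2) ^ 2 := funext fun t => hcM t
    rw [h2] at h1
    have h3 := h1.unique (hasDerivAt_const t ((a / 2) ^ 2))
    rw [← Finset.mul_sum] at h3
    linarith
  have hcon2 : ∑ j, (s 0 j ^ 2 + (R x j - a) *
      ((p' j ^ 2 + p j * p'' j + (q' j ^ 2 + q j * q'' j) - s 0 j ^ 2) / R x j)) = 0 := by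
    have h1 : HasDerivAt (fun t => ∑ j, (R (c t) j - a) * s t j)
        (∑ j, (s 0 j ^ 2 + (R x j - a) *
      ((p' j ^ 2 + p j * p'' j + (q' j ^ 2 + q j * q'' j) - s 0 j ^ 2) / R x j))) 0 := by
      refine HasDerivAt.fun_sum fun j _ => ?_
      refine HasDerivAt.congr_deriv (((hRd 0 j).sub_const a).mul (hsd j)) ?_
      ring
    have h2 : (fun t => ∑ j, (R (c t) j - a) * s t j) = fun _ => 0 := funext hcon1
    rw [h2] at h1
    exact h1.unique (hasDerivAt_const (0 : ℝ) (0 : ℝ))
  -- the pairing with the normal vector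
  have hpair : ⟪deriv (deriv c) 0, n⟫ =
      lam * ∑ j, (R x j - a) * (p j * p'' j + q j * q'' j) / R x j := by
    rw [inner_PQ, Finset.mul_sum]
    refine Finset.sum_congr rfl fun j _ => ?_
    rw [hPn, hQn, hN]
    have h3 := (hR j).ne'
    show p'' j * (lam * (R x j - a) * (p j / R x j)) + q'' j * (lam * (R x j - a) * (q j / R x j)) = _
    field_simp
  have hval : ∑ j, (R x j - a) * (p j * p'' j + q j * q'' j) / R x j =
      -∑ j, (s 0 j ^ 2 + (R x j - a) / R x j * (p' j ^ 2 + q' j ^ 2 - s 0 j ^ 2)) := by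
    have h1 : ∑ j, (R x j - a) * (p j * p'' j + q j * q'' j) / R x j +
        ∑ j, (s 0 j ^ 2 + (R x j - a) / R x j * (p' j ^ 2 + q' j ^ 2 - s 0 j ^ 2)) = 0 := by
      refine Eq.trans ?_ hcon2
      rw [← Finset.sum_add_distrib]
      refine Finset.sum_congr rfl fun j _ => ?_
      have h3 := (hR j).ne'
      field_simp
      ring
    linarith
  have hcs : ∀ j, s 0 j ^ 2 ≤ p' j ^ 2 + q' j ^ 2 := by
    intro j
    have h1 := hs0 j
    have h2 : R x j ^ 2 = p j ^ 2 + q j ^ 2 := R_sq x j
    have h3 : (s 0 j * R x j) ^ 2 ≤ (p' j ^ 2 + q' j ^ 2) * R x j ^ 2 := by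
      rw [h1, h2]
      nlinarith [sq_nonneg (p j * q' j - q j * p' j)]
    rw [mul_pow] at h3
    exact le_of_mul_le_mul_right h3 (pow_pos (hR j) 2)
  have hratio : ∀ j, |(R x j - a) / R x j| ≤ 1 := by
    intro j
    rw [abs_div, abs_of_pos (hR j), div_le_one (hR j)]
    exact (tube_bound ha hxM j).trans (tube_lower ha hxM j)
  have hle : |∑ j, (s 0 j ^ 2 + (R x j - a) / R x j * (p' j ^ 2 + q' j ^ 2 - s 0 j ^ 2))| ≤ 1 := by
    refine (Finset.abs_sum_le_sum_abs _ _).trans ?_
    have h1 : ∑ j, (p' j ^ 2 + q' j ^ 2) = 1 := by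
      rw [← norm_PQ (deriv c 0), hunit, one_pow]
    rw [← h1]
    refine Finset.sum_le_sum fun j _ => ?_
    refine (abs_add_le _ _).trans ?_
    rw [abs_of_nonneg (sq_nonneg (s 0 j)), abs_mul, abs_of_nonneg (sub_nonneg.mpr (hcs j))]
    have h2 := mul_le_mul_of_nonneg_right (hratio j) (sub_nonneg.mpr (hcs j))
    linarith
  calc ⟪deriv (deriv c) 0, n⟫ ≤ |⟪deriv (deriv c) 0, n⟫| := le_abs_self _
    _ = |lam| * |∑ j, (s 0 j ^ 2 + (R x j - a) / R x j * (p' j ^ 2 + q' j ^ 2 - s 0 j ^ 2))| := by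
      rw [hpair, hval, abs_mul, abs_neg]
    _ ≤ |lam| * 1 := mul_le_mul_of_nonneg_left hle (abs_nonneg _)
    _ = 2 / a := by rw [mul_one, hlamabs]

/-! ### The tube is a closed hypersurface of the ball -/

theorem tube_subset_ball : tube (N := N) (2 / (2 * Real.sqrt (N + 1) + 1)) ⊆
    Metric.closedBall 0 1 := by
  intro x hx
  set r : ℝ := Real.sqrt (N + 1) with hr
  have hr2 : r ^ 2 = N + 1 := Real.sq_sqrt (by positivity)
  have hr0 : 0 ≤ r := Real.sqrt_nonneg _
  set a : ℝ := 2 / (2 * r + 1) with ha'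
  have ha : 0 < a := by positivity
  have hsum : ∑ j, (R x j - a) ^ 2 = (a / 2) ^ 2 := hx
  rw [mem_closedBall_zero_iff]
  have h1 : ‖x‖ ^ 2 = (N + 1) * a ^ 2 + 2 * a * ∑ j, (R x j - a) + (a / 2) ^ 2 := by
    rw [norm_PQ, ← hsum, Finset.mul_sum]
    have : ((N : ℝ) + 1) * a ^ 2 = ∑ _j : Fin (N + 1), a ^ 2 := by
      rw [Finset.sum_const, Finset.card_univ, Fintype.card_fin, nsmul_eq_mul]
      push_cast
      ring
    rw [this, ← Finset.sum_add_distrib, ← Finset.sum_add_distrib]
    refine Finset.sum_congr rfl fun j _ => ?_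
    rw [← R_sq]
    ring
  have h2 : (∑ j, (R x j - a)) ^ 2 ≤ (r * (a / 2)) ^ 2 := by
    have := sq_sum_le_card_mul_sum_sq (s := (Finset.univ : Finset (Fin (N + 1))))
      (f := fun j => R x j - a)
    rw [hsum, Finset.card_univ, Fintype.card_fin] at this
    rw [mul_pow, hr2]
    push_cast at this
    exact this
  have h3 : ∑ j, (R x j - a) ≤ r * (a / 2) :=
    (abs_le.mp (abs_le_of_sq_le_sq h2 (by positivity))).2
  have h4 : a * (2 * r + 1) = 2 := by
    rw [ha', div_mul_cancel₀]
    positivity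
  have h5 : ‖x‖ ^ 2 ≤ 1 := by
    have h6 : (r * a + a / 2) ^ 2 = 1 := by
      have : r * a + a / 2 = 1 := by linarith
      rw [this, one_pow]
    rw [h1, ← hr2]
    nlinarith
  nlinarith [norm_nonneg x]

theorem isClosed_tube (a : ℝ) : IsClosed (tube (N := N) a) :=
  isClosed_eq (continuous_finsetSum _ fun j _ => ((continuous_R j).sub continuous_const).pow 2)
    continuous_const

theorem isCompact_tube (N : ℕ) : IsCompact (tube (N := N) (2 / (2 * Real.sqrt (N + 1) + 1))) :=
  Metric.isCompact_of_isClosed_isBounded (isClosed_tube _)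
    (Metric.isBounded_closedBall.subset tube_subset_ball)

/-- The torus of points with moduli `w` and arguments `2π s`. -/
noncomputable def torus (w : Fin (N + 1) → ℝ) (s : Fin (N + 1) → ℝ) : V N :=
  mk (fun j => w j * Real.cos (2 * Real.pi * s j)) (fun j => w j * Real.sin (2 * Real.pi * s j))

/-- The moduli of a base point. -/
noncomputable def base (a : ℝ) (j : Fin (N + 1)) : ℝ := if j = 0 then a + a / 2 else a

theorem base_pos {a : ℝ} (ha : 0 < a) (j : Fin (N + 1)) : 0 < base a j := by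
  unfold base
  split_ifs <;> positivity

theorem torus_mem {a : ℝ} (ha : 0 < a) (s : Fin (N + 1) → ℝ) : torus (base a) s ∈ tube a := by
  have h1 : ∀ j, R (torus (base a) s) j = base a j := by
    intro j
    have h2 : P (torus (base a) s) j ^ 2 + Q (torus (base a) s) j ^ 2 = base a j ^ 2 := by
      rw [torus, P_mk, Q_mk]
      linear_combination (base a j ^ 2) * Real.sin_sq_add_cos_sq (2 * Real.pi * s j)
    rw [R, h2, Real.sqrt_sq (base_pos ha j).le]
  show ∑ j, (R (torus (base a) s) j - a) ^ 2 = _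
  simp only [h1]
  rw [Finset.sum_eq_single 0]
  · unfold base
    rw [if_pos rfl]
    ring
  · intro j _ hj
    unfold base
    rw [if_neg hj]
    ring
  · intro h
    exact absurd (Finset.mem_univ _) h

theorem cupLength_tube {a : ℝ} (ha : 0 < a) :
    CupLengthAtLeast ℝ (tube (N := N) a) (N + 1) := by
  have hT : Continuous fun s : Fin (N + 1) → ℝ =>
      (⟨torus (base a) s, torus_mem ha s⟩ : tube (N := N) a) := by
    refine Continuous.subtype_mk ?_ _
    unfold torus
    refine (contDiff_mk (n := 0) (fun j => ?_) (fun j => ?_)).continuous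
    · exact contDiff_const.mul (Real.contDiff_cos.comp (contDiff_const.mul (contDiff_apply ℝ ℝ j)))
    · exact contDiff_const.mul (Real.contDiff_sin.comp (contDiff_const.mul (contDiff_apply ℝ ℝ j)))
  have hz : ∀ j : Fin (N + 1), Continuous fun x : tube (N := N) a =>
      ((P (x : V N) j : ℝ) : ℂ) + ((Q (x : V N) j : ℝ) : ℂ) * Complex.I := by
    intro j
    have h1 : Continuous fun x : tube (N := N) a => P (x : V N) j :=
      (contDiff_P (n := 0) j).continuous.comp continuous_subtype_val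
    have h2 : Continuous fun x : tube (N := N) a => Q (x : V N) j :=
      (contDiff_Q (n := 0) j).continuous.comp continuous_subtype_val
    exact (Complex.continuous_ofReal.comp h1).add
      ((Complex.continuous_ofReal.comp h2).mul continuous_const)
  have hz0 : ∀ (j : Fin (N + 1)) (x : tube (N := N) a),
      ((P (x : V N) j : ℝ) : ℂ) + ((Q (x : V N) j : ℝ) : ℂ) * Complex.I ≠ 0 := by
    intro j x h
    have h2 := congrArg Complex.re h
    have h3 := congrArg Complex.im h
    simp at h2 h3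
    have h4 := tube_pos ha x.2 j
    have h5 := R_sq (x : V N) j
    rw [h2, h3] at h5
    nlinarith
  have hper : ∀ (s : Fin (N + 1) → ℝ) (c : Fin (N + 1) → ℤ),
      torus (base a) (fun k => s k + c k) = torus (base a) s := by
    intro s c
    unfold torus
    have e1 : ∀ j, Real.cos (2 * Real.pi * (s j + c j)) = Real.cos (2 * Real.pi * s j) := by
      intro j
      rw [mul_add, mul_comm (2 * Real.pi) (c j : ℝ), Real.cos_add_int_mul_two_pi]
    have e2 : ∀ j, Real.sin (2 * Real.pi * (s j + c j)) = Real.sin (2 * Real.pi * s j) := by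
      intro j
      rw [mul_add, mul_comm (2 * Real.pi) (c j : ℝ), Real.sin_add_int_mul_two_pi]
    simp only [e1, e2]
  have hval : ∀ (s : Fin (N + 1) → ℝ) (j : Fin (N + 1)),
      ((P (torus (base a) s) j : ℝ) : ℂ) + ((Q (torus (base a) s) j : ℝ) : ℂ) * Complex.I =
        (base a j : ℂ) * Complex.exp (2 * Real.pi * Complex.I * s j) := by
    intro s j
    rw [torus, P_mk, Q_mk]
    have h1 : (2 * Real.pi * Complex.I * s j : ℂ) = ((2 * Real.pi * s j : ℝ) : ℂ) * Complex.I := by
      push_cast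
      ring
    rw [h1, Complex.exp_mul_I, ← Complex.ofReal_cos, ← Complex.ofReal_sin]
    push_cast
    ring
  exact cupLength_of_torus
    (T := ⟨fun s => (⟨torus (base a) s, torus_mem ha s⟩ : tube (N := N) a), hT⟩)
    (fun s c => Subtype.ext (hper s c))
    (fun j => ⟨fun x => ((P (x : V N) j : ℝ) : ℂ) + ((Q (x : V N) j : ℝ) : ℂ) * Complex.I, hz j⟩)
    hz0 (fun j => (base a j : ℂ)) hval

/-- The defining function. -/
noncomputable def defn (a : ℝ) (x : V N) : Fin 1 → ℝ := fun _ => ∑ j, (R x j - a) ^ 2 - (a / 2) ^ 2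

theorem isOpen_U : IsOpen {x : V N | ∀ j, 0 < P x j ^ 2 + Q x j ^ 2} := by
  have : {x : V N | ∀ j, 0 < P x j ^ 2 + Q x j ^ 2} =
      ⋂ j, {x : V N | 0 < P x j ^ 2 + Q x j ^ 2} := by
    ext x
    simp
  rw [this]
  refine isOpen_iInter_of_finite fun j => isOpen_lt continuous_const ?_
  exact ((contDiff_P (n := 0) j).continuous.pow 2).add ((contDiff_Q (n := 0) j).continuous.pow 2)

theorem contDiffOn_defn (a : ℝ) :
    ContDiffOn ℝ ∞ (defn (N := N) a) {x : V N | ∀ j, 0 < P x j ^ 2 + Q x j ^ 2} := by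
  rw [contDiffOn_pi]
  intro _
  have h1 : ∀ j, ContDiffOn ℝ ∞ (fun x : V N => R x j)
      {x : V N | ∀ j, 0 < P x j ^ 2 + Q x j ^ 2} := by
    intro j
    refine ContDiffOn.sqrt ?_ fun x hx => (hx j).ne'
    exact (((contDiff_P j).pow 2).add ((contDiff_Q j).pow 2)).contDiffOn
  refine ContDiffOn.sub ?_ contDiffOn_const
  exact ContDiffOn.sum fun j _ => ((h1 j).sub contDiffOn_const).pow 2

theorem surjective_defn {a : ℝ} (ha : 0 < a) {y : V N} (hy : y ∈ tube a) :
    Function.Surjective (fderiv ℝ (defn (N := N) a) y) := by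
  have hyU : y ∈ {x : V N | ∀ j, 0 < P x j ^ 2 + Q x j ^ 2} := fun j => by
    rw [← R_sq]
    exact pow_pos (tube_pos ha hy j) 2
  have hd : DifferentiableAt ℝ (defn (N := N) a) y :=
    ((contDiffOn_defn a).contDiffAt (isOpen_U.mem_nhds hyU)).differentiableAt (by simp)
  set w : V N := mk (fun j => (R y j - a) * (P y j / R y j)) (fun j => (R y j - a) * (Q y j / R y j))
    with hw
  have hline : HasDerivAt (fun t : ℝ => y + t • w) w 0 := by
    have := ((hasDerivAt_id (0 : ℝ)).smul_const w).const_add y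
    refine HasDerivAt.congr_deriv this ?_
    simp
  have h1 : HasDerivAt (fun t : ℝ => defn a (y + t • w)) (fderiv ℝ (defn a) y w) 0 := by
    have h2 : HasFDerivAt (defn a) (fderiv ℝ (defn a) y) (y + (0 : ℝ) • w) := by
      rw [zero_smul, add_zero]
      exact hd.hasFDerivAt
    exact h2.comp_hasDerivAt (0 : ℝ) hline
  have h2 : HasDerivAt (fun t : ℝ => defn (N := N) a (y + t • w)) (fun _ => 2 * (a / 2) ^ 2) 0 := by
    have hev : ∀ᶠ t : ℝ in nhds 0, defn (N := N) a (y + t • w) =
        fun _ => ((1 + t) ^ 2 - 1) * (a / 2) ^ 2 := by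
      have hpos : ∀ j : Fin (N + 1), ∀ᶠ t : ℝ in nhds 0, 0 < R y j + t * (R y j - a) := by
        intro j
        have hc : Continuous fun t : ℝ => R y j + t * (R y j - a) := by fun_prop
        refine hc.continuousAt.eventually (lt_mem_nhds ?_)
        simpa using tube_pos ha hy j
      filter_upwards [Filter.eventually_all.mpr hpos] with t ht
      have hRt : ∀ j, R (y + t • w) j = R y j + t * (R y j - a) := by
        intro j
        have hP : P (y + t • w) j = P y j + t * P w j := rfl
        have hQ : Q (y + t • w) j = Q y j + t * Q w j := rfl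
        have hR := (tube_pos ha hy j).ne'
        have h3 : P (y + t • w) j ^ 2 + Q (y + t • w) j ^ 2 = (R y j + t * (R y j - a)) ^ 2 := by
          have h4 : P y j = R y j * (P y j / R y j) := by rw [mul_div_cancel₀ _ hR]
          have h5 : Q y j = R y j * (Q y j / R y j) := by rw [mul_div_cancel₀ _ hR]
          have h6 : (P y j / R y j) ^ 2 + (Q y j / R y j) ^ 2 = 1 := by
            rw [div_pow, div_pow, ← add_div, ← R_sq, div_self (pow_ne_zero 2 hR)]
          rw [hP, hQ, hw, P_mk, Q_mk]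
          have h7 : P y j + t * ((R y j - a) * (P y j / R y j)) =
              (R y j + t * (R y j - a)) * (P y j / R y j) := by
            conv_lhs => rw [show P y j + t * ((R y j - a) * (P y j / R y j)) =
              R y j * (P y j / R y j) + t * ((R y j - a) * (P y j / R y j)) by rw [← h4]]
            ring
          have h8 : Q y j + t * ((R y j - a) * (Q y j / R y j)) =
              (R y j + t * (R y j - a)) * (Q y j / R y j) := by
            conv_lhs => rw [show Q y j + t * ((R y j - a) * (Q y j / R y j)) =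
              R y j * (Q y j / R y j) + t * ((R y j - a) * (Q y j / R y j)) by rw [← h5]]
            ring
          rw [h7, h8, mul_pow, mul_pow, ← mul_add, h6, mul_one]
        rw [R, h3, Real.sqrt_sq (ht j).le]
      funext _
      show ∑ j, (R (y + t • w) j - a) ^ 2 - (a / 2) ^ 2 = _
      have hsum : ∑ j, (R y j - a) ^ 2 = (a / 2) ^ 2 := hy
      have h3 : ∑ j, (R (y + t • w) j - a) ^ 2 = (1 + t) ^ 2 * ∑ j, (R y j - a) ^ 2 := by
        rw [Finset.mul_sum]
        refine Finset.sum_congr rfl fun j _ => ?_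
        rw [hRt]
        ring
      rw [h3, hsum]
      ring
    refine HasDerivAt.congr_of_eventuallyEq ?_ hev
    rw [hasDerivAt_pi]
    intro _
    have := ((((hasDerivAt_id (0 : ℝ)).const_add 1).pow 2).sub_const 1).mul_const ((a / 2) ^ 2)
    refine HasDerivAt.congr_deriv this ?_
    simp
  have h3 := h1.unique h2
  intro v
  refine ⟨(v 0 / (2 * (a / 2) ^ 2)) • w, ?_⟩
  rw [map_smul, h3]
  funext i
  have hi : i = 0 := Subsingleton.elim _ _
  subst hi
  show v 0 / (2 * (a / 2) ^ 2) * (2 * (a / 2) ^ 2) = v 0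
  rw [div_mul_cancel₀]
  positivity

theorem isClosedSubmanifold_tube (N : ℕ) :
    IsClosedSubmanifold (2 * N + 1) 1 (tube (N := N) (2 / (2 * Real.sqrt (N + 1) + 1))) := by
  set a : ℝ := 2 / (2 * Real.sqrt (N + 1) + 1) with ha'
  have ha : 0 < a := by positivity
  refine ⟨isCompact_tube N, ⟨torus (base a) 0, torus_mem ha 0⟩, fun x hx => ?_⟩
  refine ⟨{x : V N | ∀ j, 0 < P x j ^ 2 + Q x j ^ 2}, isOpen_U, fun j => ?_, defn a,
    contDiffOn_defn a, fun y _ => ?_, fun y _ hy => surjective_defn ha hy⟩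
  · rw [← R_sq]
    exact pow_pos (tube_pos ha hx j) 2
  · constructor
    · intro hy
      funext _
      show ∑ j, (R y j - a) ^ 2 - (a / 2) ^ 2 = 0
      have : ∑ j, (R y j - a) ^ 2 = (a / 2) ^ 2 := hy
      rw [this, sub_self]
    · intro hy
      have := congrFun hy 0
      have h1 : ∑ j, (R y j - a) ^ 2 - (a / 2) ^ 2 = 0 := this
      show ∑ j, (R y j - a) ^ 2 = (a / 2) ^ 2
      linarith

/-- The arithmetic. -/
theorem exists_large {ε : ℝ} (hε : 0 < ε) : ∃ N : ℕ, 2 * Real.sqrt (N + 1) + 1 <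
    ε * ((N + 1 : ℕ) : ℝ) ^ 2 / (((2 * N + 1 : ℕ) : ℝ) * ((1 : ℕ) : ℝ)) := by
  obtain ⟨N, hN⟩ := exists_nat_gt ((6 / ε) ^ 2)
  refine ⟨N, ?_⟩
  set r : ℝ := Real.sqrt (N + 1) with hr
  have hr2 : r ^ 2 = N + 1 := Real.sq_sqrt (by positivity)
  have hN0 : (0 : ℝ) ≤ N := Nat.cast_nonneg N
  have h1 : 6 / ε < r := by
    apply lt_of_pow_lt_pow_left₀ 2 (Real.sqrt_nonneg _)
    rw [hr2]
    linarith
  have h2 : 1 ≤ r := by
    rw [hr]
    apply Real.one_le_sqrt.mpr
    linarith
  have h3 : 6 < ε * r := by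
    rw [div_lt_iff₀ hε] at h1
    linarith
  push_cast
  rw [mul_one, lt_div_iff₀ (by positivity), ← hr2]
  have h4 : 2 * (N : ℝ) + 1 ≤ 2 * r ^ 2 := by
    rw [hr2]
    linarith
  calc (2 * r + 1) * (2 * (N : ℝ) + 1) ≤ (3 * r) * (2 * r ^ 2) := by
        apply mul_le_mul _ h4 (by positivity) (by positivity)
        linarith
    _ = 6 * r ^ 3 := by ring
    _ < (ε * r) * r ^ 3 := by
        apply mul_lt_mul_of_pos_right h3
        positivity
    _ = ε * (r ^ 2) ^ 2 := by ring

/-- Main statement: tubes about Clifford tori. -/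
theorem main (N : ℕ) : ∃ M : Set (EuclideanSpace ℝ (Fin (2 * N + 1 + 1))),
    IsClosedSubmanifold (2 * N + 1) 1 M ∧ M ⊆ Metric.closedBall 0 1 ∧
      CupLengthAtLeast ℝ M (N + 1) ∧ CurvatureAtMost M (2 * Real.sqrt (N + 1) + 1) := by
  have ha : (0 : ℝ) < 2 / (2 * Real.sqrt (N + 1) + 1) := by positivity
  refine ⟨tube (N := N) (2 / (2 * Real.sqrt (N + 1) + 1)), isClosedSubmanifold_tube N,
    tube_subset_ball, cupLength_tube ha, ?_⟩
  have h1 := curvature_tube (N := N) ha
  have h2 : (2 : ℝ) / (2 / (2 * Real.sqrt (N + 1) + 1)) = 2 * Real.sqrt (N + 1) + 1 := by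
    field_simp
  rw [h2] at h1
  exact h1

end Pool.Agent.V11193.Cup
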