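import Pool.Agent.V11193.Cup.Cyc

set_option autoImplicit false

open Set
open scoped ContDiff RealInnerProductSpace

namespace Pool.Agent.V11193.Cup

variable {N : ℕ}

/-- The ambient space `ℝ^(2(N+1))`, i.e. `ℂ^(N+1)`. -/
abbrev V (N : ℕ) := EuclideanSpace ℝ (Fin (2 * (N + 1)))

/-- The real parts. -/
noncomputable def P (x : V N) (j : Fin (N + 1)) : ℝ := x (finProdFinEquiv (0, j))

/-- The imaginary parts. -/
noncomputable def Q (x : V N) (j : Fin (N + 1)) : ℝ := x (finProdFinEquiv (1, j))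

/-- The point with given real and imaginary parts. -/
noncomputable def mk (p q : Fin (N + 1) → ℝ) : V N := WithLp.toLp 2 fun i =>
  if (finProdFinEquiv.symm i : Fin 2 × Fin (N + 1)).1 = 0 then
    p (finProdFinEquiv.symm i : Fin 2 × Fin (N + 1)).2
  else q (finProdFinEquiv.symm i : Fin 2 × Fin (N + 1)).2

@[simp] theorem P_mk (p q : Fin (N + 1) → ℝ) (j : Fin (N + 1)) : P (mk p q) j = p j := by
  unfold P mk
  simp

@[simp] theorem Q_mk (p q : Fin (N + 1) → ℝ) (j : Fin (N + 1)) : Q (mk p q) j = q j := by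
  unfold Q mk
  simp

theorem ext_PQ {x y : V N} (hP : ∀ j, P x j = P y j) (hQ : ∀ j, Q x j = Q y j) : x = y := by
  ext i
  obtain ⟨⟨e, j⟩, rfl⟩ := (finProdFinEquiv (m := 2) (n := N + 1)).surjective i
  fin_cases e
  · exact hP j
  · exact hQ j

theorem inner_PQ (x y : V N) : ⟪x, y⟫ = ∑ j, (P x j * P y j + Q x j * Q y j) := by
  rw [PiLp.inner_apply, ← Equiv.sum_comp (finProdFinEquiv (m := 2) (n := N + 1)),
    Fintype.sum_prod_type, Fin.sum_univ_two, ← Finset.sum_add_distrib]
  refine Finset.sum_congr rfl fun j _ => ?_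
  simp only [P, Q, RCLike.inner_apply, conj_trivial]
  ring

theorem norm_PQ (x : V N) : ‖x‖ ^ 2 = ∑ j, (P x j ^ 2 + Q x j ^ 2) := by
  rw [← real_inner_self_eq_norm_sq, inner_PQ]
  refine Finset.sum_congr rfl fun j _ => ?_
  ring

theorem contDiff_P (j : Fin (N + 1)) {n : ℕ∞ω} : ContDiff ℝ n fun x : V N => P x j :=
  (EuclideanSpace.proj (𝕜 := ℝ) (finProdFinEquiv ((0 : Fin 2), j))).contDiff

theorem contDiff_Q (j : Fin (N + 1)) {n : ℕ∞ω} : ContDiff ℝ n fun x : V N => Q x j :=
  (EuclideanSpace.proj (𝕜 := ℝ) (finProdFinEquiv ((1 : Fin 2), j))).contDiff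

theorem contDiff_mk {E : Type*} [NormedAddCommGroup E] [NormedSpace ℝ E] {n : ℕ∞ω}
    {p q : E → Fin (N + 1) → ℝ} (hp : ∀ j, ContDiff ℝ n fun t => p t j)
    (hq : ∀ j, ContDiff ℝ n fun t => q t j) : ContDiff ℝ n fun t => mk (p t) (q t) := by
  rw [contDiff_euclidean]
  intro i
  unfold mk
  simp only
  split_ifs
  · exact hp _
  · exact hq _

theorem hasDerivAt_P {c : ℝ → V N} {c' : V N} {t : ℝ} (h : HasDerivAt c c' t) (j : Fin (N + 1)) :
    HasDerivAt (fun t => P (c t) j) (P c' j) t := by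
  have := (EuclideanSpace.proj (𝕜 := ℝ)
    (finProdFinEquiv ((0 : Fin 2), j))).hasFDerivAt.comp_hasDerivAt (x := t) (hf := h)
  exact this

theorem hasDerivAt_Q {c : ℝ → V N} {c' : V N} {t : ℝ} (h : HasDerivAt c c' t) (j : Fin (N + 1)) :
    HasDerivAt (fun t => Q (c t) j) (Q c' j) t := by
  have := (EuclideanSpace.proj (𝕜 := ℝ)
    (finProdFinEquiv ((1 : Fin 2), j))).hasFDerivAt.comp_hasDerivAt (x := t) (hf := h)
  exact this

theorem deriv_mk {p q : ℝ → Fin (N + 1) → ℝ} {p' q' : Fin (N + 1) → ℝ} {t : ℝ}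
    (hp : ∀ j, HasDerivAt (fun t => p t j) (p' j) t)
    (hq : ∀ j, HasDerivAt (fun t => q t j) (q' j) t)
    (hd : DifferentiableAt ℝ (fun t => mk (p t) (q t)) t) :
    deriv (fun t => mk (p t) (q t)) t = mk p' q' := by
  have h := hd.hasDerivAt
  apply ext_PQ
  · intro j
    have h1 := hasDerivAt_P h j
    simp only [P_mk] at h1 ⊢
    exact h1.unique (hp j)
  · intro j
    have h1 := hasDerivAt_Q h j
    simp only [Q_mk] at h1 ⊢
    exact h1.unique (hq j)

/-- The moduli. -/
noncomputable def R (x : V N) (j : Fin (N + 1)) : ℝ := Real.sqrt (P x j ^ 2 + Q x j ^ 2)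

theorem R_nonneg (x : V N) (j : Fin (N + 1)) : 0 ≤ R x j := Real.sqrt_nonneg _

theorem R_sq (x : V N) (j : Fin (N + 1)) : R x j ^ 2 = P x j ^ 2 + Q x j ^ 2 :=
  Real.sq_sqrt (by positivity)

theorem continuous_R (j : Fin (N + 1)) : Continuous fun x : V N => R x j :=
  (((contDiff_P (n := 0) j).continuous.pow 2).add ((contDiff_Q (n := 0) j).continuous.pow 2)).sqrt

/-- The tube of radius `a / 2` about the torus `|z_j| = a`. -/
def tube (a : ℝ) : Set (V N) := {x | ∑ j, (R x j - a) ^ 2 = (a / 2) ^ 2}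

theorem tube_bound {a : ℝ} (ha : 0 < a) {x : V N} (hx : x ∈ tube a) (j : Fin (N + 1)) :
    |R x j - a| ≤ a / 2 := by
  have h1 : (R x j - a) ^ 2 ≤ (a / 2) ^ 2 := by
    have h2 : ∑ j, (R x j - a) ^ 2 = (a / 2) ^ 2 := hx
    rw [← h2]
    exact Finset.single_le_sum (f := fun j => (R x j - a) ^ 2) (fun i _ => sq_nonneg _)
      (Finset.mem_univ j)
  exact abs_le_of_sq_le_sq h1 (by positivity)

theorem tube_lower {a : ℝ} (ha : 0 < a) {x : V N} (hx : x ∈ tube a) (j : Fin (N + 1)) :
    a / 2 ≤ R x j := by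
  have := (abs_le.mp (tube_bound ha hx j)).1
  linarith

theorem tube_pos {a : ℝ} (ha : 0 < a) {x : V N} (hx : x ∈ tube a) (j : Fin (N + 1)) :
    0 < R x j := lt_of_lt_of_le (by positivity) (tube_lower ha hx j)

/-! ### Tangent vectors -/

theorem tangent_rot {a : ℝ} {x : V N} (hx : x ∈ tube a) (w : Fin (N + 1) → ℝ) :
    IsTangent (tube a) x (mk (fun j => -(w j * Q x j)) (fun j => w j * P x j)) := by
  set c : ℝ → V N := fun t => mk (fun j => Real.cos (w j * t) * P x j - Real.sin (w j * t) * Q x j)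
    (fun j => Real.sin (w j * t) * P x j + Real.cos (w j * t) * Q x j) with hc
  have hs : ContDiff ℝ ∞ c := by
    refine contDiff_mk (fun j => ?_) (fun j => ?_)
    · exact ((Real.contDiff_cos.comp (contDiff_const.mul contDiff_id)).mul contDiff_const).sub
        ((Real.contDiff_sin.comp (contDiff_const.mul contDiff_id)).mul contDiff_const)
    · exact ((Real.contDiff_sin.comp (contDiff_const.mul contDiff_id)).mul contDiff_const).add
        ((Real.contDiff_cos.comp (contDiff_const.mul contDiff_id)).mul contDiff_const)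
  refine ⟨c, hs, fun t => ?_, ?_, ?_⟩
  · have h1 : ∀ j, R (c t) j = R x j := by
      intro j
      unfold R
      congr 1
      rw [hc, P_mk, Q_mk]
      linear_combination (P x j ^ 2 + Q x j ^ 2) * Real.sin_sq_add_cos_sq (w j * t)
    show ∑ j, (R (c t) j - a) ^ 2 = _
    simp only [h1]
    exact hx
  · apply ext_PQ
    · intro j
      simp [hc]
    · intro j
      simp [hc]
  · have hcos : ∀ j, HasDerivAt (fun t => Real.cos (w j * t)) 0 0 := by
      intro j
      have := ((hasDerivAt_id (0 : ℝ)).const_mul (w j)).cos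
      refine HasDerivAt.congr_deriv this ?_
      simp
    have hsin : ∀ j, HasDerivAt (fun t => Real.sin (w j * t)) (w j) 0 := by
      intro j
      have := ((hasDerivAt_id (0 : ℝ)).const_mul (w j)).sin
      refine HasDerivAt.congr_deriv this ?_
      simp
    refine deriv_mk (fun j => ?_) (fun j => ?_) (hs.differentiable (by simp)).differentiableAt
    · refine HasDerivAt.congr_deriv
        (((hcos j).mul_const (P x j)).sub ((hsin j).mul_const (Q x j))) ?_
      ring
    · refine HasDerivAt.congr_deriv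
        (((hsin j).mul_const (P x j)).add ((hcos j).mul_const (Q x j))) ?_
      ring

theorem tangent_rad {a : ℝ} (ha : 0 < a) {x : V N} (hx : x ∈ tube a) (η : Fin (N + 1) → ℝ)
    (hη : ∑ j, η j * (R x j - a) = 0) :
    IsTangent (tube a) x
      (mk (fun j => η j * (P x j / R x j)) (fun j => η j * (Q x j / R x j))) := by
  set S : ℝ := ∑ j, η j ^ 2 with hS
  have hS0 : 0 ≤ S := Finset.sum_nonneg fun j _ => sq_nonneg _
  set f : ℝ → ℝ := fun t => (a / 2) / Real.sqrt ((a / 2) ^ 2 + S * t ^ 2) with hf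
  have hpos : ∀ t : ℝ, 0 < (a / 2) ^ 2 + S * t ^ 2 := fun t => by positivity
  have hfs : ContDiff ℝ ∞ f := by
    refine contDiff_const.div ?_ (fun t => (Real.sqrt_pos.mpr (hpos t)).ne')
    refine ContDiff.sqrt ?_ (fun t => (hpos t).ne')
    exact contDiff_const.add (contDiff_const.mul (contDiff_id.pow 2))
  have hf0 : f 0 = 1 := by
    rw [hf]
    simp only
    rw [zero_pow two_ne_zero, mul_zero, add_zero, Real.sqrt_sq (by positivity),
      div_self (by positivity)]
  have hfsq : ∀ t, f t ^ 2 * ((a / 2) ^ 2 + S * t ^ 2) = (a / 2) ^ 2 := by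
    intro t
    rw [hf]
    simp only
    rw [div_pow, Real.sq_sqrt (hpos t).le, div_mul_cancel₀ _ (hpos t).ne']
  have hfd : HasDerivAt f 0 0 := by
    have h1 : HasDerivAt f (deriv f 0) 0 := (hfs.differentiable (by simp)).differentiableAt.hasDerivAt
    have h2 : HasDerivAt (fun t => f t ^ 2 * ((a / 2) ^ 2 + S * t ^ 2))
        (2 * f 0 * deriv f 0 * ((a / 2) ^ 2)) 0 := by
      have h3 : HasDerivAt (fun t : ℝ => (a / 2) ^ 2 + S * t ^ 2) 0 0 := by
        have := ((hasDerivAt_id (0 : ℝ)).pow 2).const_mul S |>.const_add ((a / 2) ^ 2)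
        refine HasDerivAt.congr_deriv this ?_
        simp
      refine HasDerivAt.congr_deriv ((h1.pow 2).mul h3) ?_
      simp
    have h4 : (fun t => f t ^ 2 * ((a / 2) ^ 2 + S * t ^ 2)) = fun _ => (a / 2) ^ 2 := funext hfsq
    rw [h4] at h2
    have h5 := h2.unique (hasDerivAt_const (0 : ℝ) ((a / 2) ^ 2))
    rw [hf0] at h5
    have h6 : deriv f 0 = 0 := by
      have ha2 : (a / 2) ^ 2 ≠ 0 := by positivity
      have : deriv f 0 * (2 * (a / 2) ^ 2) = 0 := by linarith
      rcases mul_eq_zero.mp this with h | h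
      · exact h
      · exfalso
        apply ha2
        linarith
    rw [h6] at h1
    exact h1
  -- the radii
  set y : ℝ → Fin (N + 1) → ℝ := fun t j => f t * ((R x j - a) + η j * t) with hy
  have hysum : ∀ t, ∑ j, y t j ^ 2 = (a / 2) ^ 2 := by
    intro t
    have h1 : ∑ j, (R x j - a) ^ 2 = (a / 2) ^ 2 := hx
    have h2 : ∑ j, y t j ^ 2 = f t ^ 2 * (∑ j, (R x j - a) ^ 2 + 2 * t * ∑ j, η j * (R x j - a) +
        S * t ^ 2) := by
      rw [hS, Finset.mul_sum, Finset.sum_mul, ← Finset.sum_add_distrib, ← Finset.sum_add_distrib,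
        Finset.mul_sum]
      refine Finset.sum_congr rfl fun j _ => ?_
      rw [hy]
      ring
    rw [h2, hη, h1, mul_zero, add_zero, hfsq]
  have hylt : ∀ t j, 0 < a + y t j := by
    intro t j
    have h1 : y t j ^ 2 ≤ (a / 2) ^ 2 := by
      rw [← hysum t]
      exact Finset.single_le_sum (f := fun j => y t j ^ 2) (fun i _ => sq_nonneg _)
        (Finset.mem_univ j)
    have h2 := (abs_le.mp (abs_le_of_sq_le_sq h1 (by positivity))).1
    linarith
  set c : ℝ → V N := fun t => mk (fun j => (a + y t j) * (P x j / R x j))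
    (fun j => (a + y t j) * (Q x j / R x j)) with hc
  have hys : ∀ j, ContDiff ℝ ∞ fun t => y t j := fun j =>
    hfs.mul (contDiff_const.add (contDiff_const.mul contDiff_id))
  have hs : ContDiff ℝ ∞ c := by
    refine contDiff_mk (fun j => ?_) (fun j => ?_)
    · exact (contDiff_const.add (hys j)).mul contDiff_const
    · exact (contDiff_const.add (hys j)).mul contDiff_const
  have hyd : ∀ j, HasDerivAt (fun t => y t j) (η j) 0 := by
    intro j
    have h1 : HasDerivAt (fun t : ℝ => (R x j - a) + η j * t) (η j) 0 := by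
      have := ((hasDerivAt_id (0 : ℝ)).const_mul (η j)).const_add (R x j - a)
      refine HasDerivAt.congr_deriv this ?_
      simp
    refine HasDerivAt.congr_deriv (hfd.mul h1) ?_
    rw [hf0]
    ring
  refine ⟨c, hs, fun t => ?_, ?_, ?_⟩
  · have h1 : ∀ j, R (c t) j = a + y t j := by
      intro j
      have h2 : P (c t) j ^ 2 + Q (c t) j ^ 2 = (a + y t j) ^ 2 := by
        rw [hc, P_mk, Q_mk, mul_pow, mul_pow, ← mul_add, div_pow, div_pow, ← add_div, ← R_sq,
          div_self (pow_ne_zero 2 (tube_pos ha hx j).ne'), mul_one]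
      rw [R, h2, Real.sqrt_sq (hylt t j).le]
    show ∑ j, (R (c t) j - a) ^ 2 = _
    rw [← hysum t]
    refine Finset.sum_congr rfl fun j _ => ?_
    rw [h1]
    ring
  · have h1 : ∀ j, a + y 0 j = R x j := by
      intro j
      rw [hy]
      simp only
      rw [hf0]
      ring
    apply ext_PQ
    · intro j
      rw [hc, P_mk, h1, mul_div_cancel₀ _ (tube_pos ha hx j).ne']
    · intro j
      rw [hc, Q_mk, h1, mul_div_cancel₀ _ (tube_pos ha hx j).ne']
  · refine deriv_mk (fun j => ?_) (fun j => ?_) (hs.differentiable (by simp)).differentiableAt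
    · exact ((hyd j).const_add a).mul_const _
    · exact ((hyd j).const_add a).mul_const _

end Pool.Agent.V11193.Cup
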