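import Pool.Agent.V11193.Cup.Defs

set_option autoImplicit false

open Set

namespace Pool.Agent.V11193.Cup

variable {X : Type*} [TopologicalSpace X]

theorem sum_map {α β : Type*} [Fintype α] [Fintype β] (f : α → β) (t : stdSimplex ℝ α)
    (g : β → ℝ) : ∑ y, (stdSimplex.map f t) y * g y = ∑ x, t x * g (f x) := by
  classical
  simp only [stdSimplex.map_coe, FunOnFinite.linearMap_apply_apply, Finset.sum_mul]
  rw [← Finset.sum_fiberwise Finset.univ f (fun x => t x * g (f x))]
  refine Finset.sum_congr rfl fun y _ => Finset.sum_congr rfl fun x hx => ?_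
  rw [(Finset.mem_filter.mp hx).2]

/-! ### Continuous logarithms and winding cochains -/

instance (n : ℕ) : SimplyConnectedSpace (stdSimplex ℝ (Fin (n + 1))) := by
  have : ContractibleSpace (stdSimplex ℝ (Fin (n + 1))) :=
    (convex_stdSimplex ℝ (Fin (n + 1))).contractibleSpace ⟨_, single_mem_stdSimplex ℝ 0⟩
  infer_instance

instance (n : ℕ) : LocallyPathConnectedSpace (stdSimplex ℝ (Fin (n + 1))) :=
  (convex_stdSimplex ℝ (Fin (n + 1))).locallyPathConnectedSpace

theorem exists_lift {n : ℕ} (g : C(stdSimplex ℝ (Fin (n + 1)), ℂ)) (hg : ∀ t, g t ≠ 0) :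
    ∃ L : C(stdSimplex ℝ (Fin (n + 1)), ℂ), ∀ t, Complex.exp (L t) = g t := by
  obtain ⟨F, ⟨-, hF⟩, -⟩ := Complex.isCoveringMapOn_exp.existsUnique_continuousMap_lifts g
    (a₀ := stdSimplex.vertex 0) (Complex.exp_log (hg _)) (fun a => hg a)
  exact ⟨F, fun t => congrFun hF t⟩

theorem lift_unique {n : ℕ} (L L' : C(stdSimplex ℝ (Fin (n + 1)), ℂ))
    (h : ∀ t, Complex.exp (L t) = Complex.exp (L' t)) (s t : stdSimplex ℝ (Fin (n + 1))) :
    L t - L s = L' t - L' s := by
  obtain ⟨F, -, hF⟩ := Complex.isCoveringMapOn_exp.existsUnique_continuousMap_lifts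
    (⟨fun t => Complex.exp (L t), by fun_prop⟩ : C(stdSimplex ℝ (Fin (n + 1)), ℂ))
    (a₀ := s) (e₀ := L s) rfl (fun a => Complex.exp_ne_zero _)
  have h1 := hF L ⟨rfl, rfl⟩
  have h2 := hF (⟨fun t => L' t + (L s - L' s), by fun_prop⟩ : C(stdSimplex ℝ (Fin (n + 1)), ℂ))
    ⟨by simp, by
      funext t
      simp only [Function.comp, ContinuousMap.coe_mk]
      rw [Complex.exp_add, Complex.exp_sub, h s, div_self (Complex.exp_ne_zero _), mul_one, h t]⟩
  have h3 := congrArg (fun G : C(stdSimplex ℝ (Fin (n + 1)), ℂ) => G t) (h1.trans h2.symm)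
  simp only [ContinuousMap.coe_mk] at h3
  rw [h3]
  ring

/-- The `1`-cochain assigning to a path the total change of the argument of `z`, over `2π`. -/
noncomputable def wind (z : C(X, ℂ)) (hz : ∀ x, z x ≠ 0) : Cochain ℝ X 1 := fun σ =>
  ((exists_lift (z.comp σ) fun t => hz (σ t)).choose (stdSimplex.vertex 1) -
    (exists_lift (z.comp σ) fun t => hz (σ t)).choose (stdSimplex.vertex 0)).im / (2 * Real.pi)

theorem wind_eq (z : C(X, ℂ)) (hz : ∀ x, z x ≠ 0) (σ : Simplex X 1)
    (L : C(stdSimplex ℝ (Fin 2), ℂ)) (hL : ∀ t, Complex.exp (L t) = z (σ t)) :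
    wind z hz σ = (L (stdSimplex.vertex 1) - L (stdSimplex.vertex 0)).im / (2 * Real.pi) := by
  have h := (exists_lift (z.comp σ) fun t => hz (σ t)).choose_spec
  rw [wind, lift_unique _ L (fun t => (h t).trans (hL t).symm)]

theorem wind_cocycle (z : C(X, ℂ)) (hz : ∀ x, z x ≠ 0) : IsCocycle (wind z hz) := by
  funext σ
  obtain ⟨L, hL⟩ := exists_lift (z.comp σ) fun t => hz (σ t)
  have h : ∀ i : Fin 3, wind z hz (σ.pull i.succAbove) =
      (L (stdSimplex.vertex (i.succAbove 1)) - L (stdSimplex.vertex (i.succAbove 0))).im /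
        (2 * Real.pi) := by
    intro i
    rw [wind_eq z hz _ (L.comp ⟨stdSimplex.map i.succAbove, stdSimplex.continuous_map _⟩)
      (fun t => hL _)]
    simp only [ContinuousMap.comp_apply, ContinuousMap.coe_mk, stdSimplex.map_vertex]
  show ∑ i : Fin 3, (-1) ^ (i : ℕ) * wind z hz (σ.pull i.succAbove) = 0
  rw [Fin.sum_univ_three, h, h, h]
  have e1 : (0 : Fin 3).succAbove (1 : Fin 2) = 2 := by decide
  have e2 : (0 : Fin 3).succAbove (0 : Fin 2) = 1 := by decide
  have e3 : (1 : Fin 3).succAbove (1 : Fin 2) = 2 := by decide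
  have e4 : (1 : Fin 3).succAbove (0 : Fin 2) = 0 := by decide
  have e5 : (2 : Fin 3).succAbove (1 : Fin 2) = 1 := by decide
  have e6 : (2 : Fin 3).succAbove (0 : Fin 2) = 0 := by decide
  rw [e1, e2, e3, e4, e5, e6]
  simp only [Fin.val_zero, Fin.val_one, Fin.val_two, pow_zero, pow_one, Complex.sub_im]
  ring

/-! ### Affine simplices in a torus -/

variable {l : ℕ} (T : C(Fin l → ℝ, X))

/-- The affine simplex with integer vertices `v 0, …, v n`, mapped by `T`. -/
noncomputable def tau (n : ℕ) (v : ℕ → Fin l → ℤ) : Simplex X n :=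
  ⟨fun t => T fun k => ∑ m : Fin (n + 1), t m * (v m k : ℝ), by
    refine T.continuous.comp (continuous_pi fun k => continuous_finsetSum _ fun m _ => ?_)
    exact ((continuous_apply m).comp continuous_subtype_val).mul continuous_const⟩

theorem tau_pull {n k : ℕ} (v : ℕ → Fin l → ℤ) (f : Fin (k + 1) → Fin (n + 1)) (g : ℕ → ℕ)
    (hg : ∀ i : Fin (k + 1), (f i : ℕ) = g i) :
    (tau T n v).pull f = tau T k (v ∘ g) := by
  ext t
  show T _ = T _
  congr 1
  funext j
  refine (sum_map f t fun m => (v m j : ℝ)).trans ?_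
  refine Finset.sum_congr rfl fun x _ => ?_
  rw [hg, Function.comp]

theorem tau_congr {n : ℕ} {v w : ℕ → Fin l → ℤ} (h : ∀ i ≤ n, v i = w i) :
    tau T n v = tau T n w := by
  ext t
  show T _ = T _
  congr 1
  funext j
  refine Finset.sum_congr rfl fun x _ => ?_
  rw [h x (by omega)]

theorem tau_add (hT : ∀ (s : Fin l → ℝ) (c : Fin l → ℤ), T (fun k => s k + c k) = T s) {n : ℕ}
    (v : ℕ → Fin l → ℤ) (c : Fin l → ℤ) :
    tau T n (fun i k => v i k + c k) = tau T n v := by
  ext t
  show T _ = T _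
  rw [← hT (fun k => ∑ m : Fin (n + 1), t m * (v m k : ℝ)) c]
  congr 1
  funext j
  push_cast
  simp only [mul_add, Finset.sum_add_distrib]
  rw [← Finset.sum_mul, stdSimplex.sum_eq_one, one_mul]

variable (z : Fin l → C(X, ℂ)) (hz : ∀ j x, z j x ≠ 0)

theorem wind_tau (w : Fin l → ℂ)
    (hzT : ∀ s j, z j (T s) = w j * Complex.exp (2 * Real.pi * Complex.I * s j)) (j : Fin l)
    (v : ℕ → Fin l → ℤ) : wind (z j) (hz j) (tau T 1 v) = v 1 j - v 0 j := by
  have hw : w j ≠ 0 := by
    intro h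
    have := hzT 0 j
    rw [h, zero_mul] at this
    exact hz j _ this
  have hc : Continuous fun t : stdSimplex ℝ (Fin 2) => Complex.log (w j) +
      2 * Real.pi * Complex.I * ((∑ m : Fin 2, t m * (v m j : ℝ) : ℝ) : ℂ) := by
    refine continuous_const.add (continuous_const.mul (Complex.continuous_ofReal.comp ?_))
    refine continuous_finsetSum _ fun m _ => ?_
    exact ((continuous_apply m).comp continuous_subtype_val).mul continuous_const
  rw [wind_eq (z j) (hz j) _ ⟨_, hc⟩]
  · simp only [ContinuousMap.coe_mk, stdSimplex.vertex_coe, Fin.sum_univ_two]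
    simp
    field_simp
  · intro t
    show Complex.exp (Complex.log (w j) + _) = z j (T _)
    rw [hzT, Complex.exp_add, Complex.exp_log hw]

/-- The product of the increments. -/
def prodDiff : List (Fin l) → (ℕ → Fin l → ℤ) → ℤ
  | [], _ => 1
  | j :: js, v => (v 1 j - v 0 j) * prodDiff js fun i => v (1 + i)

theorem cupList_tau (w : Fin l → ℂ)
    (hzT : ∀ s j, z j (T s) = w j * Complex.exp (2 * Real.pi * Complex.I * s j))
    (js : List (Fin l)) :
    (cupList (js.map fun j => (⟨1, wind (z j) (hz j)⟩ : Σ p, Cochain ℝ X p))).1 = js.length ∧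
    ∀ v : ℕ → Fin l → ℤ,
      (cupList (js.map fun j => (⟨1, wind (z j) (hz j)⟩ : Σ p, Cochain ℝ X p))).2 (tau T _ v) =
        prodDiff js v := by
  induction js with
  | nil =>
    refine ⟨rfl, fun v => ?_⟩
    show (1 : ℝ) = ((1 : ℤ) : ℝ)
    simp
  | cons j js ih =>
    refine ⟨?_, fun v => ?_⟩
    · rw [List.map_cons, cupList, List.length_cons, ← ih.1]
      simp only
      rw [add_comm]
    · show wind (z j) (hz j) ((tau T _ v).pull (front 1 _)) *
        (cupList (js.map fun j => (⟨1, wind (z j) (hz j)⟩ : Σ p, Cochain ℝ X p))).2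
          ((tau T _ v).pull (back 1 _)) = _
      rw [tau_pull T v (front 1 _) id (fun i => rfl), tau_pull T v (back 1 _) (fun i => 1 + i)
        (fun i => rfl), Function.comp_id, wind_tau T z hz w hzT, ih.2, prodDiff]
      push_cast
      rfl

theorem prodDiff_ofFn : ∀ {n : ℕ} (f : Fin n → Fin l) (v : ℕ → Fin l → ℤ),
    prodDiff (List.ofFn f) v = ∏ i : Fin n, (v (i + 1) (f i) - v i (f i))
  | 0, f, v => by simp [prodDiff]
  | n + 1, f, v => by
    rw [List.ofFn_succ, prodDiff, prodDiff_ofFn, Fin.prod_univ_succ]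
    congr 1
    refine Finset.prod_congr rfl fun i _ => ?_
    have e1 : 1 + ((i : ℕ) + 1) = ((i.succ : Fin (n + 1)) : ℕ) + 1 := by
      rw [Fin.val_succ]
      omega
    have e2 : 1 + (i : ℕ) = ((i.succ : Fin (n + 1)) : ℕ) := by
      rw [Fin.val_succ]
      omega
    rw [e1, e2]

end Pool.Agent.V11193.Cup
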